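import Pool.Agent.Helper75.PX.Stmts2

set_option autoImplicit false

universe u

open Module TensorProduct

namespace Pool.Agent.Helper75.PX

theorem st_CAN (h1 : ST_WA.{u}) (h2 : ST_MMM.{u}) (h3 : ST_UNI.{u}) : ST_CAN.{u} := by
  intro K X Y _ _ _ _ _ _ _ _ _ _ _ a ha hXY
  obtain ⟨r, D, iD, iKD, hr, hfD, hcD, hfin, ⟨e⟩⟩ := h1 K X
  obtain ⟨s, D', iD', iKD', hs, hfD', hcD', hfin', ⟨e'⟩⟩ := h1 K Y
  obtain ⟨f⟩ := hXY
  obtain ⟨g⟩ := h2 K D a r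
  obtain ⟨g'⟩ := h2 K D' a s
  have t1 : Matrix (Fin a) (Fin a) (Matrix (Fin r) (Fin r) D) ≃ₐ[K]
      Matrix (Fin a) (Fin a) X := e.symm.mapMatrix
  have t2 : Matrix (Fin a) (Fin a) Y ≃ₐ[K]
      Matrix (Fin a) (Fin a) (Matrix (Fin s) (Fin s) D') := e'.mapMatrix
  have t3 : Matrix (Fin (a * r)) (Fin (a * r)) D ≃ₐ[K] Matrix (Fin (a * s)) (Fin (a * s)) D' :=
    (((g.symm.trans t1).trans f).trans t2).trans g'
  obtain ⟨h4, ⟨h5⟩⟩ := h3 K D D' (a * r) (a * s) (Nat.mul_pos ha hr) (Nat.mul_pos ha hs) ⟨t3⟩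
  have h6 : r = s := Nat.eq_of_mul_eq_mul_left ha h4
  subst h6
  have t4 : Matrix (Fin r) (Fin r) D ≃ₐ[K] Matrix (Fin r) (Fin r) D' := h5.mapMatrix
  exact ⟨(e.trans t4).trans e'.symm⟩

end Pool.Agent.Helper75.PX
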